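import Mathlib
import Pool.Agent.Lib.MP_e532e2_pr.Bridge

set_option autoImplicit false

namespace Pool.Agent.Results.MP_e532e2_pr.Bridges

open Pool.Agent.Lib.MP_e532e2_pr

/-- Raising ferromagnetic couplings on bridges of a finite graph does not raise the spectral gap
of heat-bath Glauber dynamics; on a forest every edge is a bridge. -/
theorem result :
    ∀ (n : ℕ) (G : SimpleGraph (Fin n)) [DecidableRel G.Adj]
      (mu : (Sym2 (Fin n) → ℝ) → (Fin n → Bool) → ℝ),
      (∀ (J : Sym2 (Fin n) → ℝ) (σ : Fin n → Bool), mu J σ =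
        Real.exp (1 / 2 * ∑ u : Fin n, ∑ v : Fin n,
            if G.Adj u v then J s(u, v) * (if σ u = σ v then (1:ℝ) else -1) else 0) /
        ∑ τ : Fin n → Bool, Real.exp (1 / 2 * ∑ u : Fin n, ∑ v : Fin n,
            if G.Adj u v then J s(u, v) * (if τ u = τ v then (1:ℝ) else -1) else 0)) →
      ∀ (Var Dir : (Sym2 (Fin n) → ℝ) → ((Fin n → Bool) → ℝ) → ℝ),
      (∀ (J : Sym2 (Fin n) → ℝ) (f : (Fin n → Bool) → ℝ),
        Var J f = ∑ σ : Fin n → Bool, mu J σ * (f σ - ∑ τ : Fin n → Bool, mu J τ * f τ) ^ 2) →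
      (∀ (J : Sym2 (Fin n) → ℝ) (f : (Fin n → Bool) → ℝ),
        Dir J f = (1 / 2 : ℝ) * ∑ σ : Fin n → Bool, mu J σ * ∑ v : Fin n, (1 / (n : ℝ)) *
          ∑ b : Bool, mu J (Function.update σ v b) /
            (mu J (Function.update σ v true) + mu J (Function.update σ v false)) *
            (f σ - f (Function.update σ v b)) ^ 2) →
      ∀ J J' : Sym2 (Fin n) → ℝ, (∀ e, 0 ≤ J e) → (∀ e, J e ≤ J' e) →
        (∀ e ∈ G.edgeSet, ¬ G.IsBridge e → J e = J' e) → ∀ c : ℝ,
        (∀ f : (Fin n → Bool) → ℝ, c * Var J' f ≤ Dir J' f) →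
        ∀ f : (Fin n → Bool) → ℝ, c * Var J f ≤ Dir J f := by
  intro n G _ mu hmu Var Dir hVar hDir J J' h0 hle hb c h f
  have e : ∀ K, mu K = gibbs G K := fun K => funext fun σ => hmu K σ
  rcases Nat.eq_zero_or_pos n with rfl | hn
  · have h1 := h f
    have : ∀ K σ, gibbs G K σ = 1 := by intro K σ; simp [gibbs, H]
    simp [hVar, hDir, e, this]
  have hn' : (0 : ℝ) < n := by exact_mod_cast hn
  have := main G J J' h0 hle hb (n * c) (fun g => by
    have h1 := h g
    rw [hVar, hDir, e, dir_formula, one_div, inv_mul_eq_div, le_div_iff₀ hn'] at h1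
    linarith) f
  rw [hVar, hDir, e, dir_formula, one_div, inv_mul_eq_div, le_div_iff₀ hn']
  linarith

end Pool.Agent.Results.MP_e532e2_pr.Bridges
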