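import Mathlib
import Pool.Agent.Lib.MP_e532e2_pr.HiMain

set_option autoImplicit false

namespace Pool.Agent.Results.MP_e532e2_pr.HighTemp

open Pool.Agent.Lib.MP_e532e2_pr

/-- On every finite graph with ferromagnetic couplings of total strength at most `Δ` at each
vertex, the spectral gap of heat-bath Glauber dynamics is non-increasing in the inverse
temperature on the interval from `0` to `3 / (8 Δ)`. -/
theorem result :
    ∀ (n : ℕ) (G : SimpleGraph (Fin n)) [DecidableRel G.Adj] (J : Sym2 (Fin n) → ℝ)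
      (mu : ℝ → (Fin n → Bool) → ℝ),
      (∀ (t : ℝ) (σ : Fin n → Bool), mu t σ =
        Real.exp (t / 2 * ∑ u : Fin n, ∑ v : Fin n,
            if G.Adj u v then J s(u, v) * (if σ u = σ v then (1:ℝ) else -1) else 0) /
        ∑ τ : Fin n → Bool, Real.exp (t / 2 * ∑ u : Fin n, ∑ v : Fin n,
            if G.Adj u v then J s(u, v) * (if τ u = τ v then (1:ℝ) else -1) else 0)) →
      ∀ (Var Dir : ℝ → ((Fin n → Bool) → ℝ) → ℝ),
      (∀ (t : ℝ) (f : (Fin n → Bool) → ℝ),
        Var t f = ∑ σ : Fin n → Bool, mu t σ * (f σ - ∑ τ : Fin n → Bool, mu t τ * f τ) ^ 2) →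
      (∀ (t : ℝ) (f : (Fin n → Bool) → ℝ),
        Dir t f = (1 / 2 : ℝ) * ∑ σ : Fin n → Bool, mu t σ * ∑ v : Fin n, (1 / (n : ℝ)) *
          ∑ b : Bool, mu t (Function.update σ v b) /
            (mu t (Function.update σ v true) + mu t (Function.update σ v false)) *
            (f σ - f (Function.update σ v b)) ^ 2) →
      (∀ e, 0 ≤ J e) →
      ∀ Δ : ℝ, (∀ u : Fin n, (∑ v : Fin n, if G.Adj u v then J s(u, v) else 0) ≤ Δ) →
      ∀ β β' : ℝ, 0 ≤ β → β ≤ β' → β' * Δ ≤ 3 / 8 → ∀ c : ℝ,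
        (∀ f : (Fin n → Bool) → ℝ, c * Var β' f ≤ Dir β' f) →
        ∀ f : (Fin n → Bool) → ℝ, c * Var β f ≤ Dir β f := by
  intro n G _ J mu hmu Var Dir hVar hDir hJ Δ hΔ β β' hβ hle hΔ' c h f
  set a : Fin n → Fin n → ℝ := fun u v => if G.Adj u v then J s(u, v) else 0 with hadef
  have ha : ∀ v, a v v = 0 := fun v => by simp [hadef]
  have hs : ∀ u v, a u v = a v u := fun u v => by
    simp only [hadef, G.adj_comm u v, Sym2.eq_swap (a := u) (b := v)]
  have h0 : ∀ u v, 0 ≤ a u v := fun u v => by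
    simp only [hadef]; split_ifs
    · exact hJ _
    · exact le_rfl
  have eH : ∀ (t : ℝ) (σ : Fin n → Bool), t / 2 * (∑ u : Fin n, ∑ v : Fin n,
      if G.Adj u v then J s(u, v) * (if σ u = σ v then (1:ℝ) else -1) else 0) =
      t * Hi.En a σ := by
    intro t σ
    unfold Hi.En
    have : ∀ u v, (if G.Adj u v then J s(u, v) * (if σ u = σ v then (1:ℝ) else -1) else 0) =
        a u v * (Hi.sp (σ u) * Hi.sp (σ v)) := by
      intro u v
      simp only [hadef]
      by_cases hA : G.Adj u v <;> cases σ u <;> cases σ v <;> simp [Hi.sp, hA]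
    simp only [this]
    ring
  have eG : ∀ (t : ℝ) (σ : Fin n → Bool), H G (fun e => t * J e) σ = t * Hi.En a σ := by
    intro t σ
    rw [← eH]
    unfold H
    rw [div_eq_mul_one_div t 2, mul_comm t, mul_assoc]
    congr 1
    simp only [Finset.mul_sum]
    refine Finset.sum_congr rfl fun u _ => Finset.sum_congr rfl fun v _ => ?_
    split_ifs <;> ring
  have e : ∀ t, mu t = gibbs G (fun e => t * J e) := fun t => funext fun σ => by
    rw [hmu]; unfold gibbs; simp only [eH, eG]
  have Z : ∀ t, 0 < ∑ τ, Hi.Wt a t τ := fun t =>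
    Finset.sum_pos (fun _ _ => Hi.Wt_pos a t _) Finset.univ_nonempty
  have eW : ∀ t σ, gibbs G (fun e => t * J e) σ = Hi.Wt a t σ / ∑ τ, Hi.Wt a t τ := by
    intro t σ; unfold gibbs Hi.Wt; simp only [eG]
  have eP : ∀ t x (g : (Fin n → Bool) → ℝ) σ,
      Px (gibbs G (fun e => t * J e)) x g σ = Px (Hi.Wt a t) x g σ := by
    intro t x g σ
    rw [Px_apply, Px_apply, eW, eW]
    have := Z t
    have := Hi.Wt_pos a t (Function.update σ x true)
    have := Hi.Wt_pos a t (Function.update σ x false)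
    field_simp
  have eD : ∀ t (g : (Fin n → Bool) → ℝ), ∑ x, ∑ σ, gibbs G (fun e => t * J e) σ *
      (g σ - Px (gibbs G (fun e => t * J e)) x g σ) ^ 2 =
      (∑ x, ∑ σ, Hi.Wt a t σ * (g σ - Px (Hi.Wt a t) x g σ) ^ 2) / ∑ τ, Hi.Wt a t τ := by
    intro t g
    simp only [Finset.sum_div, eP]
    exact Finset.sum_congr rfl fun x _ => Finset.sum_congr rfl fun σ _ => by rw [eW]; ring
  have eI : ∀ t (g : (Fin n → Bool) → ℝ), ∑ σ, gibbs G (fun e => t * J e) σ * g σ ^ 2 =
      ip (Hi.Wt a t) g g / ∑ τ, Hi.Wt a t τ := by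
    intro t g
    simp only [ip_apply, Finset.sum_div]
    exact Finset.sum_congr rfl fun σ _ => by rw [eW]; ring
  have pos : ∀ t σ, 0 < gibbs G (fun e => t * J e) σ := fun t σ => by
    rw [eW]; exact div_pos (Hi.Wt_pos a t σ) (Z t)
  have sym : ∀ t σ, gibbs G (fun e => t * J e) (neg σ) = gibbs G (fun e => t * J e) σ :=
    fun t σ => by rw [eW, eW, Hi.Wt_neg]
  rcases Nat.eq_zero_or_pos n with rfl | hn
  · have : ∀ K σ, gibbs G K σ = 1 := by intro K σ; simp [gibbs, H]
    simp [hVar, hDir, e, this]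
  have hn' : (0 : ℝ) < n := by exact_mod_cast hn
  have key := Hi.hi_main a ha hs h0 Δ β β' hΔ hβ hle hΔ' (n * c) (fun g hg _ => by
    have h1 := h g
    have m0 : ∑ τ, gibbs G (fun e => β' * J e) τ * g τ = 0 := by
      have := sum_neg' (fun τ => gibbs G (fun e => β' * J e) τ * g τ)
      simp only [sym, hg, mul_neg, Finset.sum_neg_distrib] at this
      linarith
    rw [hVar, hDir, e, dir_formula, one_div, inv_mul_eq_div, le_div_iff₀ hn', m0] at h1
    simp only [sub_zero] at h1
    rw [eD, eI, le_div_iff₀ (Z β')] at h1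
    have := (Z β').ne'
    have e2 : c * (ip (Hi.Wt a β') g g / ∑ τ, Hi.Wt a β' τ) * n * ∑ τ, Hi.Wt a β' τ =
        n * c * ip (Hi.Wt a β') g g := by field_simp
    rwa [e2] at h1)
  have fin := poincare_of_MP (gibbs G (fun e => β * J e)) (pos β) (sym β)
    (by simp only [eW]; rw [← Finset.sum_div, div_self (Z β).ne'])
    (fun x σ τ hστ => by
      simp only [eW]
      rw [div_mul_div_comm, div_mul_div_comm]
      exact div_le_div_of_nonneg_right (Hi.Wt_lat a ha hs h0 β hβ x σ τ hστ)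
        (mul_pos (Z β) (Z β)).le) (n * c)
    (fun u hu hum => by
      rw [eD, eI, ← mul_div_assoc]
      exact div_le_div_of_nonneg_right (key u hu hum) (Z β).le) f
  rw [hVar, hDir, e, dir_formula, one_div, inv_mul_eq_div, le_div_iff₀ hn']
  linarith

end Pool.Agent.Results.MP_e532e2_pr.HighTemp
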