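import Mathlib
import Pool.Agent.Lib.MP_e532e2_pr.Bridge
import Pool.Agent.Lib.MP_e532e2_pr.Poly

set_option autoImplicit false

namespace Pool.Agent.Results.MP_e532e2_pr.PolyFactor

open Pool.Agent.Lib.MP_e532e2_pr

/-- On every finite graph, raising ferromagnetic couplings raises the spectral gap of heat-bath
Glauber dynamics by at most a polynomial factor. -/
theorem result :
    ∀ (n : ℕ) (G : SimpleGraph (Fin n)) [DecidableRel G.Adj]
      (mu : (Sym2 (Fin n) → ℝ) → (Fin n → Bool) → ℝ),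
      (∀ (J : Sym2 (Fin n) → ℝ) (σ : Fin n → Bool), mu J σ =
        Real.exp (1 / 2 * ∑ u : Fin n, ∑ v : Fin n,
            if G.Adj u v then J s(u, v) * (if σ u = σ v then (1:ℝ) else -1) else 0) /
        ∑ τ : Fin n → Bool, Real.exp (1 / 2 * ∑ u : Fin n, ∑ v : Fin n,
            if G.Adj u v then J s(u, v) * (if τ u = τ v then (1:ℝ) else -1) else 0)) →
      ∀ (Var Dir : (Sym2 (Fin n) → ℝ) → ((Fin n → Bool) → ℝ) → ℝ),
      (∀ (J : Sym2 (Fin n) → ℝ) (f : (Fin n → Bool) → ℝ),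
        Var J f = ∑ σ : Fin n → Bool, mu J σ * (f σ - ∑ τ : Fin n → Bool, mu J τ * f τ) ^ 2) →
      (∀ (J : Sym2 (Fin n) → ℝ) (f : (Fin n → Bool) → ℝ),
        Dir J f = (1 / 2 : ℝ) * ∑ σ : Fin n → Bool, mu J σ * ∑ v : Fin n, (1 / (n : ℝ)) *
          ∑ b : Bool, mu J (Function.update σ v b) /
            (mu J (Function.update σ v true) + mu J (Function.update σ v false)) *
            (f σ - f (Function.update σ v b)) ^ 2) →
      ∀ J J' : Sym2 (Fin n) → ℝ, (∀ e, 0 ≤ J e) → (∀ e, J e ≤ J' e) → ∀ c : ℝ, 0 ≤ c →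
        (∀ f : (Fin n → Bool) → ℝ, c * Var J' f ≤ Dir J' f) →
        ∀ f : (Fin n → Bool) → ℝ,
          max (max (c / (4 * (n : ℝ) ^ 2))
            (c / (4 * Var J' (fun σ => ∑ v : Fin n, if σ v then (1:ℝ) else -1) + 2 * n)))
            (c ^ 2 / 6) * Var J f ≤ Dir J f := by
  intro n G _ mu hmu Var Dir hVar hDir J J' h0 hle c hc h f
  suffices H3 : c / (4 * (n : ℝ) ^ 2) * Var J f ≤ Dir J f ∧
      c / (4 * Var J' (fun σ => ∑ v : Fin n, if σ v then (1:ℝ) else -1) + 2 * n) * Var J f ≤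
        Dir J f ∧
      c ^ 2 / 6 * Var J f ≤ Dir J f by
    obtain ⟨a1, a2, a3⟩ := H3
    simp only [max_def]
    split_ifs <;> assumption
  have e : ∀ K, mu K = gibbs G K := fun K => funext fun σ => hmu K σ
  rcases Nat.eq_zero_or_pos n with rfl | hn
  · have : ∀ K σ, gibbs G K σ = 1 := by intro K σ; simp [gibbs, H]
    simp [hVar, hDir, e, this]
  have hn' : (0 : ℝ) < n := by exact_mod_cast hn
  have e1 : ∀ K σ, Real.exp (H G K σ) =
      wt (fun z : Fin n × Fin n => if G.Adj z.1 z.2 then K s(z.1, z.2) / 2 else 0) σ := by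
    intro K σ
    unfold wt H
    rw [Fintype.sum_prod_type, Finset.mul_sum]
    congr 1
    refine Finset.sum_congr rfl fun u _ => ?_
    rw [Finset.mul_sum]
    refine Finset.sum_congr rfl fun v _ => ?_
    unfold sg
    by_cases a : G.Adj u v
    · simp only [a, if_true]; ring
    · simp [a]
  have e2 : ∀ K, gibbs G K =
      gb (fun z : Fin n × Fin n => if G.Adj z.1 z.2 then K s(z.1, z.2) / 2 else 0) := by
    intro K
    funext σ
    simp only [gibbs, gb, e1]
  have hh : ∀ g : (Fin n → Bool) → ℝ, n * c * ∑ σ, gibbs G J' σ * (g σ - ∑ τ, gibbs G J' τ * g τ) ^ 2 ≤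
      ∑ x, ∑ σ, gibbs G J' σ * (g σ - Px (gibbs G J') x g σ) ^ 2 := fun g => by
    have h1 := h g
    rw [hVar, hDir, e, dir_formula, one_div, inv_mul_eq_div, le_div_iff₀ hn'] at h1
    linarith
  rw [e2] at hh
  obtain ⟨p1, p2⟩ := poly
    (fun z : Fin n × Fin n => if G.Adj z.1 z.2 then J' s(z.1, z.2) / 2 else 0)
    (fun z : Fin n × Fin n => if G.Adj z.1 z.2 then J s(z.1, z.2) / 2 else 0)
    (fun z => by have := h0 s(z.1, z.2); split_ifs <;> linarith)
    (fun z => by have := hle s(z.1, z.2); split_ifs <;> linarith) (n * c) (by positivity)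
    ⟨0, hn⟩ hh f
  obtain ⟨l1, l2⟩ := lin_bd _ (gb_pos _) (gb_neg _) (gb_sum _) _ ⟨0, hn⟩ hh
  have e3 : Var J' (fun σ => ∑ v : Fin n, if σ v then (1:ℝ) else -1) =
      ∑ σ, gibbs G J' σ * (2 * cnt σ - Fintype.card (Fin n)) ^ 2 := by
    rw [hVar, e, e2]
    simp only [mag_eq, mag_mean _ (gb_neg _) (gb_sum _), sub_zero]
  have v0 : ∀ (K : Sym2 (Fin n) → ℝ) (a : (Fin n → Bool) → ℝ), 0 ≤ ∑ σ, gibbs G K σ * a σ ^ 2 :=
    fun K a => Finset.sum_nonneg fun σ _ => mul_nonneg (by rw [e2]; exact (gb_pos _ σ).le)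
      (sq_nonneg _)
  have v1 := v0 J' fun σ => 2 * cnt σ - Fintype.card (Fin n)
  have v2 := v0 J fun σ => f σ - ∑ τ, gibbs G J τ * f τ
  rw [← e2] at p1 p2 l2
  rw [← e2] at p2
  rw [e3, hVar, hDir, e, dir_formula, one_div, inv_mul_eq_div]
  simp only [le_div_iff₀ hn']
  rw [Fintype.card_fin] at *
  generalize ∑ σ, gibbs G J' σ * (2 * cnt σ - n) ^ 2 = X at *
  rw [mul_div_assoc] at p1 p2
  refine ⟨by linarith, by linarith, le_trans ?_ p2⟩
  have k : c ^ 2 / 6 ≤ c / (4 * X + 2 * n) := by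
    rw [div_le_div_iff₀ (by norm_num) (by positivity)]
    have : c * X ≤ 1 := by
      by_contra hh
      have := mul_lt_mul_of_pos_left (not_le.1 hh) hn'
      linarith
    nlinarith
  have := mul_le_mul_of_nonneg_right k (mul_nonneg hn'.le v2)
  linarith

end Pool.Agent.Results.MP_e532e2_pr.PolyFactor
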